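import Mathlib
import Pool.Agent.Y271.RO.Stm

set_option autoImplicit false

namespace Pool.Agent.Y484.RO

open MeasureTheory Set Metric Filter Topology
open scoped InnerProductSpace ENNReal NNReal ComplexConjugate ContDiff
open Pool.Agent.Y283.NK (ct IsMul HasHyp)
open Pool.Agent.Y271.RO

/-- the integral of the kernel over a disc -/
lemma ker_bound (hHT : S_HT) (r : ℝ) (hr : 0 < r) : ∃ K : ℝ, 0 ≤ K ∧ ∀ c l : ℂ,
    ∫⁻ z in ball c r, ‖(z - l)⁻¹‖ₑ ≤ ENNReal.ofReal K := by
  obtain ⟨K, hK, h⟩ := hHT r hr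
  refine ⟨K, hK, fun c l => ?_⟩
  let g : ℂ → ℂ := (ball c r).indicator (fun z => (z - l) * ((‖z - l‖⁻¹ : ℝ) : ℂ))
  have hg : Bd g c r 1 := by
    refine ⟨?_, zero_le_one, ?_, ?_⟩
    · exact Measurable.indicator (by fun_prop) measurableSet_ball
    · intro z
      by_cases hz : z ∈ ball c r
      · simp only [g, indicator_of_mem hz]
        rw [norm_mul, Complex.norm_real, norm_inv, norm_norm]
        exact mul_inv_le_one
      · simp [g, hz]
    · intro z hz
      exact indicator_of_notMem hz _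
  obtain ⟨-, -, hint, hb, -⟩ := h c 1 g hg
  have h1 : ∀ z, g z * (z - l)⁻¹ =
      (((ball c r).indicator (fun z => ‖(z - l)⁻¹‖) z : ℝ) : ℂ) := by
    intro z
    by_cases hz : z ∈ ball c r
    · simp only [g, indicator_of_mem hz]
      by_cases h0 : z - l = 0
      · simp [h0]
      · rw [norm_inv]
        field_simp
    · simp [g, hz]
  have h2 : Integrable ((ball c r).indicator (fun z => ‖(z - l)⁻¹‖)) := by
    have h3 := (hint l).norm
    refine h3.congr (ae_of_all _ fun z => ?_)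
    simp only
    rw [h1, Complex.norm_real, Real.norm_of_nonneg (indicator_nonneg (fun _ _ => norm_nonneg _) _)]
  have h3 : ∫ z, (ball c r).indicator (fun z => ‖(z - l)⁻¹‖) z ≤ K := by
    have h4 := hb l
    unfold ht at h4
    simp_rw [h1] at h4
    rw [integral_complex_ofReal, Complex.norm_real, Real.norm_eq_abs, mul_one] at h4
    exact (le_abs_self _).trans h4
  rw [← lintegral_indicator measurableSet_ball]
  have h4 : ∀ z, (ball c r).indicator (fun z => ‖(z - l)⁻¹‖ₑ) z =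
      ENNReal.ofReal ((ball c r).indicator (fun z => ‖(z - l)⁻¹‖) z) := by
    intro z
    by_cases hz : z ∈ ball c r
    · simp only [indicator_of_mem hz]
      rw [ofReal_norm]
    · simp [hz]
  simp_rw [h4]
  rw [← ofReal_integral_eq_lintegral_ofReal h2
    (ae_of_all _ fun z => indicator_nonneg (fun _ _ => norm_nonneg _) _)]
  exact ENNReal.ofReal_le_ofReal h3

/-- a subsequence which converges almost everywhere -/
lemma exists_seq (f : ℕ → ℂ → ℝ≥0∞) (hf : ∀ n, Measurable (f n)) (s : Set ℂ)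
    (h : Tendsto (fun n => ∫⁻ w in s, f n w) atTop (𝓝 0)) :
    ∃ σ : ℕ → ℕ, StrictMono σ ∧
      ∀ᵐ w ∂(volume.restrict s), Tendsto (fun n => f (σ n) w) atTop (𝓝 0) := by
  have h1 : ∀ n : ℕ, ∀ᶠ k in atTop, ∫⁻ w in s, f k w < (2⁻¹ : ℝ≥0∞) ^ n := fun n =>
    (tendsto_order.1 h).2 _ (ENNReal.pow_pos (by simp) n)
  obtain ⟨σ, hσ, hσ'⟩ := Filter.extraction_forall_of_eventually h1
  refine ⟨σ, hσ, ?_⟩
  have h2 : ∫⁻ w in s, ∑' n, f (σ n) w ≠ ⊤ := by
    rw [lintegral_tsum fun n => (hf _).aemeasurable]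
    refine ne_top_of_le_ne_top ?_ (ENNReal.tsum_le_tsum fun n => (hσ' n).le)
    rw [ENNReal.tsum_geometric]
    simp
  have h3 := ae_lt_top (Measurable.tsum fun n => hf (σ n)) h2
  filter_upwards [h3] with w hw
  exact ENNReal.tendsto_atTop_zero_of_tsum_ne_top hw.ne

/-- the convergence of the integrals with respect to the spectral measure -/
lemma part_c {S : Type} [MeasurableSpace S] {μ : Measure S} (φ : S → ℂ) (hφ : Measurable φ)
    (u v : Lp ℂ 2 μ) (w : ℂ) (F : ℕ → ℂ → ℂ) (F' : ℂ → ℂ) (C : ℝ) (hF : ∀ n, Measurable (F n))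
    (hF' : Measurable F') (hFb : ∀ n z, ‖F n z‖ ≤ C) (hFb' : ∀ z, ‖F' z‖ ≤ C)
    (hx : ∀ x : Lp ℂ 2 μ, Tendsto (fun n => ∫ s, conj (x s) * (F n (φ s) * u s) ∂μ) atTop
      (𝓝 (∫ s, conj (x s) * (F' (φ s) * u s) ∂μ)))
    (hk : Integrable (fun s => conj (v s) * u s * (φ s - w)⁻¹) μ) :
    Tendsto (fun n => ∫ s, F n (φ s) * (conj (v s) * u s * (φ s - w)⁻¹) ∂μ) atTop
      (𝓝 (∫ s, F' (φ s) * (conj (v s) * u s * (φ s - w)⁻¹) ∂μ)) := by
  have hC : 0 ≤ C := (norm_nonneg _).trans (hFb' 0)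
  let k : S → ℂ := fun s => conj (v s) * u s * (φ s - w)⁻¹
  let A : ℕ → Set S := fun m => {s | ‖φ s - w‖ < 1 / ((m : ℝ) + 1)}
  have hA : ∀ m, MeasurableSet (A m) := fun m =>
    measurableSet_lt (by fun_prop) measurable_const
  have hanti : Antitone A := by
    intro m m' hm s hs
    have h1 : (1 : ℝ) / ((m' : ℝ) + 1) ≤ 1 / ((m : ℝ) + 1) := by
      have : (m : ℝ) ≤ m' := by exact_mod_cast hm
      apply one_div_le_one_div_of_le (by positivity)
      linarith
    exact lt_of_lt_of_le hs h1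
  have he : Tendsto (fun m => ∫ s in A m, ‖k s‖ ∂μ) atTop (𝓝 0) := by
    have h1 := tendsto_setIntegral_of_antitone hA hanti ⟨0, (hk.norm).integrableOn (s := A 0)⟩
    have h2 : ∫ s in ⋂ n, A n, ‖k s‖ ∂μ = 0 := by
      apply setIntegral_eq_zero_of_forall_eq_zero
      intro s hs
      have h3 : φ s - w = 0 := by
        by_contra h4
        have h5 : 0 < ‖φ s - w‖ := norm_pos_iff.mpr h4
        obtain ⟨m, hm⟩ := exists_nat_one_div_lt h5
        exact absurd (mem_iInter.mp hs m) (not_lt.mpr hm.le)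
      simp [k, h3]
    rw [← h2]
    exact h1
  have hcompl : ∀ m, ∃ x : Lp ℂ 2 μ, ∀ H : ℂ → ℂ,
      ∫ s, conj (x s) * (H (φ s) * u s) ∂μ = ∫ s in (A m)ᶜ, H (φ s) * k s ∂μ := by
    intro m
    have h1 : MemLp (fun s => (A m)ᶜ.indicator (fun s => v s * conj ((φ s - w)⁻¹)) s) 2 μ := by
      refine MemLp.of_le_mul (c := (m : ℝ) + 1) (Lp.memLp v) ?_ (ae_of_all _ fun s => ?_)
      · refine AEStronglyMeasurable.indicator ?_ (hA m).compl
        refine (Lp.memLp v).1.mul ?_
        exact (by fun_prop : Measurable fun s => conj ((φ s - w)⁻¹)).aestronglyMeasurable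
      · by_cases hs : s ∈ (A m)ᶜ
        · rw [indicator_of_mem hs, norm_mul, mul_comm]
          refine mul_le_mul_of_nonneg_right ?_ (norm_nonneg _)
          rw [RCLike.norm_conj, norm_inv]
          have h2 : 1 / ((m : ℝ) + 1) ≤ ‖φ s - w‖ := not_lt.mp hs
          have h3 : (0 : ℝ) < (m : ℝ) + 1 := by positivity
          rw [inv_le_comm₀ (lt_of_lt_of_le (by positivity) h2) h3]
          rwa [one_div] at h2
        · rw [indicator_of_notMem hs, norm_zero]
          positivity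
    refine ⟨h1.toLp _, fun H => ?_⟩
    rw [← integral_indicator (hA m).compl]
    apply integral_congr_ae
    filter_upwards [h1.coeFn_toLp] with s hs
    rw [hs]
    by_cases hs' : s ∈ (A m)ᶜ
    · rw [indicator_of_mem hs', indicator_of_mem hs', map_mul, RCLike.conj_conj]
      simp only [k]
      ring
    · rw [indicator_of_notMem hs', indicator_of_notMem hs', map_zero, zero_mul]
  have hint : ∀ H : ℂ → ℂ, Measurable H → (∀ z, ‖H z‖ ≤ C) →
      Integrable (fun s => H (φ s) * k s) μ := by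
    intro H hH hHb
    refine Integrable.mono' (hk.norm.const_mul C) ?_ (ae_of_all _ fun s => ?_)
    · exact (hH.comp hφ).aestronglyMeasurable.mul hk.1
    · rw [norm_mul]
      exact mul_le_mul_of_nonneg_right (hHb _) (norm_nonneg _)
  have hbd : ∀ H : ℂ → ℂ, Measurable H → (∀ z, ‖H z‖ ≤ C) → ∀ m,
      ‖∫ s in A m, H (φ s) * k s ∂μ‖ ≤ C * ∫ s in A m, ‖k s‖ ∂μ := by
    intro H hH hHb m
    rw [← integral_const_mul]
    refine norm_integral_le_of_norm_le (hk.norm.const_mul C).integrableOn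
      (ae_of_all _ fun s => ?_)
    rw [norm_mul]
    exact mul_le_mul_of_nonneg_right (hHb _) (norm_nonneg _)
  rw [Metric.tendsto_atTop]
  intro ε hε
  have h1 : Tendsto (fun m => 2 * C * ∫ s in A m, ‖k s‖ ∂μ) atTop (𝓝 0) := by
    have := he.const_mul (2 * C)
    rwa [mul_zero] at this
  obtain ⟨m, hm⟩ := ((tendsto_order.1 h1).2 (ε / 2) (by linarith)).exists
  obtain ⟨x, hxm⟩ := hcompl m
  have h2 := hx x
  rw [Metric.tendsto_atTop] at h2
  obtain ⟨N, hN⟩ := h2 (ε / 2) (by linarith)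
  refine ⟨N, fun n hn => ?_⟩
  have h3 := hN n hn
  rw [hxm, hxm, dist_eq_norm] at h3
  rw [dist_eq_norm]
  have h4 : ∫ s, F n (φ s) * k s ∂μ = ∫ s in A m, F n (φ s) * k s ∂μ +
      ∫ s in (A m)ᶜ, F n (φ s) * k s ∂μ :=
    (integral_add_compl (hA m) (hint _ (hF n) (hFb n))).symm
  have h5 : ∫ s, F' (φ s) * k s ∂μ = ∫ s in A m, F' (φ s) * k s ∂μ +
      ∫ s in (A m)ᶜ, F' (φ s) * k s ∂μ :=
    (integral_add_compl (hA m) (hint _ hF' hFb')).symm
  change ‖∫ s, F n (φ s) * k s ∂μ - ∫ s, F' (φ s) * k s ∂μ‖ < ε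
  rw [h4, h5]
  have h6 := hbd _ (hF n) (hFb n) m
  have h7 := hbd _ hF' hFb' m
  calc ‖(∫ s in A m, F n (φ s) * k s ∂μ + ∫ s in (A m)ᶜ, F n (φ s) * k s ∂μ) -
        (∫ s in A m, F' (φ s) * k s ∂μ + ∫ s in (A m)ᶜ, F' (φ s) * k s ∂μ)‖
      = ‖(∫ s in A m, F n (φ s) * k s ∂μ - ∫ s in A m, F' (φ s) * k s ∂μ) +
        (∫ s in (A m)ᶜ, F n (φ s) * k s ∂μ - ∫ s in (A m)ᶜ, F' (φ s) * k s ∂μ)‖ := by
        congr 1; ring
    _ ≤ ‖∫ s in A m, F n (φ s) * k s ∂μ‖ + ‖∫ s in A m, F' (φ s) * k s ∂μ‖ +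
        ‖∫ s in (A m)ᶜ, F n (φ s) * k s ∂μ - ∫ s in (A m)ᶜ, F' (φ s) * k s ∂μ‖ :=
        (norm_add_le _ _).trans (add_le_add_left (norm_sub_le _ _) _)
    _ < ε := by
        have h8 : 2 * C * ∫ s in A m, ‖k s‖ ∂μ = C * (∫ s in A m, ‖k s‖ ∂μ) +
          C * (∫ s in A m, ‖k s‖ ∂μ) := by ring
        linarith

/-- convergence almost everywhere -/
theorem main (hFID : S_FID) (hCTG : S_CTG) (hPOM : S_POM) (hHT : S_HT) : S_PTW := by
  intro S _ μ _ φ hφ u v a ρ C q G hρ hq1 hqC hG hGC hweak hdb ψ hψ hsupp hx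
  obtain ⟨-, hprod, hhol, -, hcontdb, -, hdbsupp⟩ := hPOM
  obtain ⟨K, hK, hker⟩ := ker_bound hHT ρ hρ
  have hfm : Measurable (ff φ u v) := measurable_const.sub (hCTG S μ φ hφ v u).1
  have hψc : HasCompactSupport ψ := (isCompact_closedBall a ρ).of_isClosed_subset
    (isClosed_tsupport ψ) (hsupp.trans ball_subset_closedBall)
  have hψ1 : ContDiff ℝ 1 ψ := hψ.of_le (by exact_mod_cast le_top)
  have hψ0 : ∀ z, z ∉ ball a ρ → ψ z = 0 := fun z hz =>
    image_eq_zero_of_notMem_tsupport (fun h => hz (hsupp h))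
  have hdψ0 : ∀ z, z ∉ ball a ρ → db ψ z = 0 := fun z hz =>
    hdbsupp ψ z (fun h => hz (hsupp h))
  have hC : 0 ≤ C := (norm_nonneg _).trans (hqC 0 a (mem_ball_self hρ))
  obtain ⟨M, hM⟩ : ∃ M, ∀ z, ‖ψ z‖ ≤ M := hψc.exists_bound_of_continuous hψ.continuous
  have hM0 : 0 ≤ M := (norm_nonneg _).trans (hM a)
  have hχn : ∀ n, ContDiff ℝ 1 (fun z => ψ z * q n z) := fun n => hψ1.mul (hq1 n)
  have hχnc : ∀ n, HasCompactSupport (fun z => ψ z * q n z) := fun n => hψc.mul_right
  have hGat : ∀ z ∈ ball a ρ, ContDiffAt ℝ 1 G z := fun z hz =>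
    ((hG.analyticAt (isOpen_ball.mem_nhds hz)).contDiffAt (n := 1)).restrict_scalars ℝ
  have hχ : ContDiff ℝ 1 (fun z => ψ z * G z) := by
    rw [contDiff_iff_contDiffAt]
    intro z
    by_cases hz : z ∈ ball a ρ
    · exact hψ1.contDiffAt.mul (hGat z hz)
    · have h1 : (fun z => ψ z * G z) =ᶠ[𝓝 z] fun _ => 0 := by
        have h2 : z ∉ tsupport ψ := fun h => hz (hsupp h)
        filter_upwards [notMem_tsupport_iff_eventuallyEq.mp h2] with t ht
        rw [ht]
        simp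
      exact contDiffAt_const.congr_of_eventuallyEq h1
  have hχc : HasCompactSupport (fun z => ψ z * G z) := hψc.mul_right
  have hdn : ∀ n z, db (fun z => ψ z * q n z) z = db ψ z * q n z + ψ z * db (q n) z :=
    fun n z => hprod ψ (q n) z (hψ1.differentiable one_ne_zero z)
      ((hq1 n).differentiable one_ne_zero z)
  have hd : ∀ z, db (fun z => ψ z * G z) z = db ψ z * G z := by
    intro z
    by_cases hz : z ∈ ball a ρ
    · rw [hprod ψ G z (hψ1.differentiable one_ne_zero z)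
        ((hGat z hz).differentiableAt one_ne_zero),
        hhol G z (hG.differentiableAt (isOpen_ball.mem_nhds hz)), mul_zero, add_zero]
    · rw [hdψ0 z hz, zero_mul]
      apply hdbsupp
      intro h
      exact hz (hsupp (tsupport_mul_subset_left h))
  -- the identity of Cauchy and Pompeiu
  have hFn : ∀ᵐ w : ℂ, ∀ n : ℕ, _ := ae_all_iff.2 fun n =>
    hFID S μ φ hφ u v _ (hχn n) (hχnc n)
  have hFG := hFID S μ φ hφ u v _ hχ hχc
  have hFψ := hFID S μ φ hφ u v ψ hψ1 hψc
  -- the part (a)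
  let g : ℕ → ℂ → ℂ := fun n z => ff φ u v z * (ψ z * db (q n) z)
  have hgm : ∀ n, Measurable (g n) := fun n =>
    hfm.mul (hψ.continuous.measurable.mul (hcontdb _ (hq1 n)).measurable)
  let al : ℕ → ℂ → ℝ≥0∞ := fun n w => ∫⁻ z, ‖g n z‖ₑ * ‖(z - w)⁻¹‖ₑ
  have hm2 : ∀ n, Measurable (Function.uncurry fun w z : ℂ => ‖g n z‖ₑ * ‖(z - w)⁻¹‖ₑ) := by
    intro n
    have e1 : Measurable fun p : ℂ × ℂ => ‖g n p.2‖ₑ := ((hgm n).comp measurable_snd).enorm
    have e2 : Measurable fun p : ℂ × ℂ => ‖(p.2 - p.1)⁻¹‖ₑ :=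
      (by fun_prop : Measurable fun p : ℂ × ℂ => (p.2 - p.1)⁻¹).enorm
    exact e1.mul e2
  have halm : ∀ n, Measurable (al n) := fun n => (hm2 n).lintegral_prod_right'
  have hal : Tendsto (fun n => ∫⁻ w in ball a ρ, al n w) atTop (𝓝 0) := by
    have h1 : ∀ n, ∫⁻ w in ball a ρ, al n w ≤ ENNReal.ofReal K * (ENNReal.ofReal M *
        ∫⁻ z in ball a ρ, ‖ff φ u v z * db (q n) z‖ₑ) := by
      intro n
      simp only [al]
      rw [lintegral_lintegral_swap (hm2 n).aemeasurable]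
      have h2 : ∀ z, ∫⁻ w in ball a ρ, ‖g n z‖ₑ * ‖(z - w)⁻¹‖ₑ ≤
          ENNReal.ofReal K * ‖g n z‖ₑ := by
        intro z
        rw [lintegral_const_mul' _ _ enorm_ne_top, mul_comm]
        refine mul_le_mul_left ?_ _
        refine le_trans (le_of_eq ?_) (hker a z)
        refine lintegral_congr fun w => ?_
        rw [← enorm_neg, ← inv_neg, neg_sub]
      refine (lintegral_mono h2).trans ?_
      rw [lintegral_const_mul' _ _ ENNReal.ofReal_ne_top]
      refine mul_le_mul_right ?_ _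
      have h3 : ∫⁻ z, ‖g n z‖ₑ = ∫⁻ z in ball a ρ, ‖g n z‖ₑ := by
        rw [← lintegral_indicator measurableSet_ball]
        refine lintegral_congr fun z => ?_
        by_cases hz : z ∈ ball a ρ
        · rw [indicator_of_mem hz]
        · rw [indicator_of_notMem hz]
          simp only [g]
          rw [hψ0 z hz]
          simp
      rw [h3, ← lintegral_const_mul' _ _ ENNReal.ofReal_ne_top]
      refine lintegral_mono fun z => ?_
      simp only [g]
      have h4 : ff φ u v z * (ψ z * db (q n) z) = ψ z * (ff φ u v z * db (q n) z) := by ring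
      rw [h4, enorm_mul]
      refine mul_le_mul_left ?_ _
      rw [← ofReal_norm]
      exact ENNReal.ofReal_le_ofReal (hM z)
    have h2 : Tendsto (fun n => ENNReal.ofReal K * (ENNReal.ofReal M *
        ∫⁻ z in ball a ρ, ‖ff φ u v z * db (q n) z‖ₑ)) atTop (𝓝 0) := by
      have h3 := ENNReal.Tendsto.const_mul (a := ENNReal.ofReal K)
        (ENNReal.Tendsto.const_mul (a := ENNReal.ofReal M) hdb
          (Or.inr ENNReal.ofReal_ne_top)) (Or.inr ENNReal.ofReal_ne_top)
      rwa [mul_zero, mul_zero] at h3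
    exact tendsto_of_tendsto_of_tendsto_of_le_of_le tendsto_const_nhds h2
      (fun _ => zero_le) h1
  obtain ⟨σ, hσ, hσ'⟩ := exists_seq al halm (ball a ρ) hal
  refine ⟨σ, hσ, ?_⟩
  rw [ae_restrict_iff' measurableSet_ball] at hσ'
  filter_upwards [hFn, hFG, hFψ, hσ'] with w h1 h2 h3 h4
  by_cases hw : w ∈ ball a ρ
  swap
  · rw [hψ0 w hw]
    simp
  have h4' := h4 hw
  -- the three limits
  have hA : Tendsto (fun n => ∫ z, g (σ n) z * (z - w)⁻¹) atTop (𝓝 0) := by
    rw [tendsto_zero_iff_norm_tendsto_zero]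
    have h5 : Tendsto (fun n => ‖∫ z, g (σ n) z * (z - w)⁻¹‖ₑ) atTop (𝓝 0) :=
      tendsto_of_tendsto_of_tendsto_of_le_of_le tendsto_const_nhds h4' (fun _ => zero_le)
        (fun n => (enorm_integral_le_lintegral_enorm _).trans
          (le_of_eq (lintegral_congr fun z => enorm_mul _ _)))
    have h6 := (ENNReal.tendsto_toReal ENNReal.zero_ne_top).comp h5
    rw [ENNReal.toReal_zero] at h6
    refine h6.congr fun n => ?_
    simp only [Function.comp_apply, toReal_enorm]
  have hB : Tendsto (fun n => ∫ z, ff φ u v z * (db ψ z * q n z) * (z - w)⁻¹) atTop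
      (𝓝 (∫ z, ff φ u v z * (db ψ z * G z) * (z - w)⁻¹)) := by
    have h5 := hweak (fun z => ff φ u v z * db ψ z * (z - w)⁻¹) h3.1.integrableOn
    have h6 : ∀ H : ℂ → ℂ, ∫ z in ball a ρ, H z * (ff φ u v z * db ψ z * (z - w)⁻¹) =
        ∫ z, ff φ u v z * (db ψ z * H z) * (z - w)⁻¹ := by
      intro H
      rw [setIntegral_eq_integral_of_forall_compl_eq_zero]
      · refine integral_congr_ae (ae_of_all _ fun z => ?_)
        simp only
        ring
      · intro z hz
        rw [hdψ0 z hz]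
        simp
    simp only [h6] at h5
    exact h5
  have hD : Tendsto (fun n => ∫ s, ψ (φ s) * q n (φ s) *
      (conj (v s) * u s * (φ s - w)⁻¹) ∂μ) atTop
      (𝓝 (∫ s, ψ (φ s) * G (φ s) * (conj (v s) * u s * (φ s - w)⁻¹) ∂μ)) := by
    refine part_c φ hφ u v w (fun n z => ψ z * q n z) (fun z => ψ z * G z) (M * C)
      (fun n => (hχn n).continuous.measurable) hχ.continuous.measurable ?_ ?_ ?_ h3.2.1
    · intro n z
      by_cases hz : z ∈ ball a ρ
      · rw [norm_mul]
        exact mul_le_mul (hM z) (hqC n z hz) (norm_nonneg _) hM0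
      · rw [hψ0 z hz, zero_mul, norm_zero]
        positivity
    · intro z
      by_cases hz : z ∈ ball a ρ
      · rw [norm_mul]
        exact mul_le_mul (hM z) (hGC z hz) (norm_nonneg _) hM0
      · rw [hψ0 z hz, zero_mul, norm_zero]
        positivity
    · intro x
      have h5 := hx x
      have h6 : ∀ H : ℂ → ℂ, ∫ s, conj (x s) * (H (φ s) * ψ (φ s) * u s) ∂μ =
          ∫ s, conj (x s) * ((fun z => ψ z * H z) (φ s) * u s) ∂μ := by
        intro H
        refine integral_congr_ae (ae_of_all _ fun s => ?_)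
        simp only
        ring
      simp only [h6] at h5
      exact h5
  -- the identities at the point
  have hEn : ∀ n, ψ w * q n w * ff φ u v w = -(1 / Real.pi : ℂ) *
      ((∫ z, ff φ u v z * (db ψ z * q n z) * (z - w)⁻¹) + ∫ z, g n z * (z - w)⁻¹) +
      ∫ s, ψ (φ s) * q n (φ s) * (conj (v s) * u s * (φ s - w)⁻¹) ∂μ := by
    intro n
    rw [(h1 n).2.2]
    congr 2
    have hi1 : Integrable (fun z => ff φ u v z * (db ψ z * q n z) * (z - w)⁻¹) := by
      refine Integrable.mono' (h3.1.norm.const_mul C) ?_ (ae_of_all _ fun z => ?_)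
      · refine Measurable.aestronglyMeasurable ?_
        refine (hfm.mul ((hcontdb ψ hψ1).measurable.mul (hq1 n).continuous.measurable)).mul ?_
        fun_prop
      · by_cases hz : z ∈ ball a ρ
        · have h5 : ff φ u v z * (db ψ z * q n z) * (z - w)⁻¹ =
              q n z * (ff φ u v z * db ψ z * (z - w)⁻¹) := by ring
          rw [h5, norm_mul]
          exact mul_le_mul_of_nonneg_right (hqC n z hz) (norm_nonneg _)
        · rw [hdψ0 z hz]
          simp
    have hi2 : Integrable (fun z => g n z * (z - w)⁻¹) := by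
      refine ((h1 n).1.sub hi1).congr (ae_of_all _ fun z => ?_)
      simp only [Pi.sub_apply, g]
      rw [hdn n z]
      ring
    rw [← integral_add hi1 hi2]
    refine integral_congr_ae (ae_of_all _ fun z => ?_)
    simp only [g]
    rw [hdn n z]
    ring
  have hE : ψ w * G w * ff φ u v w = -(1 / Real.pi : ℂ) *
      ((∫ z, ff φ u v z * (db ψ z * G z) * (z - w)⁻¹) + 0) +
      ∫ s, ψ (φ s) * G (φ s) * (conj (v s) * u s * (φ s - w)⁻¹) ∂μ := by
    rw [h2.2.2, add_zero]
    congr 2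
    refine integral_congr_ae (ae_of_all _ fun z => ?_)
    simp only
    rw [hd z]
  rw [hE]
  simp_rw [hEn]
  exact (((hB.comp hσ.tendsto_atTop).add hA).const_mul _).add (hD.comp hσ.tendsto_atTop)

end Pool.Agent.Y484.RO
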